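import Mathlib
import Pool.Agent.Helper3K9.EM.Fin

/-!
# All extremal measures for the Laplacian on the Bernstein space of the ball

For `n ≥ 2` the complex measures `ν` on `ℝ^n` with Fourier transform `-|ξ|^2` on the unit ball and
total variation `n` are exactly the measures
`-(n/3) δ_0 - ∑_{k ≥ 1} (-1)^k σ_k`, where `σ_k` is a positive measure of mass `4 n / (π^2 k^2)` on
the sphere `|x| = π k`, and for all vectors `v` and all `l ≥ 1` the moment `∫ <x, v>^l dσ_k` is a
polynomial in `k^2`, of degree at most `(l - 2) / 2` (zero if `l = 1`), with value at `0` equal to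
`4 |v|^2` if `l = 2` and `0` otherwise.

Proof. Necessity: by averages over balls with the weights `(s^2 - |η|^2)^a` the Fourier transform of
`cos (τ |x|) ν` is known where `|ξ| + τ ≤ 1`; at `ξ = 0`, `τ = 1` this forces `|x| ∈ π ℕ` and
`ν = - cos |x| |ν|`. Then `∑_k σ_k^(ξ) cos (π k t)` is known for `|ξ| ≤ t ≤ 1`, so the differences
to a known solution have Fourier transforms `2 ∫_0^|ξ| cos (π k t) K(t) dt`, and comparison of the
Taylor coefficients gives the vanishing of divided differences in `k^2`. Sufficiency: integrals of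
`<v, ξ>^m e^{-i<x,ξ>} (1 - |ξ|^2)^a` are finite sums of polynomials in `<x, v>` times
`∫ cos (|x| t) (1 - t^2)^(b+j) dt`, and the alternating sums over `k` of these against `k^(2 i)`
vanish.
-/

open MeasureTheory Set
open scoped Polynomial

namespace Pool.Agent.Results.MP_489845_an.ExtremalMeasures

/-- The Fourier transform `∫ e^{-i<t,ξ>} dν(t)` of a complex measure. -/
noncomputable def fourierTransform {n : ℕ} (ν : ComplexMeasure (EuclideanSpace ℝ (Fin n)))
    (ξ : EuclideanSpace ℝ (Fin n)) : ℂ :=
  ν.integral (fun t => Complex.exp (-((inner ℝ t ξ : ℝ) : ℂ) * Complex.I))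
    (ContinuousLinearMap.mul ℝ ℂ)

/-- `ν` is an extremal measure for the Laplacian on `B(K_2)`: its Fourier transform is `-|ξ|^2` on
the closed unit ball and its total variation is `n`. -/
def IsExtremal (n : ℕ) (ν : ComplexMeasure (EuclideanSpace ℝ (Fin n))) : Prop :=
  (∀ ξ : EuclideanSpace ℝ (Fin n), ‖ξ‖ ≤ 1 → fourierTransform ν ξ = -((‖ξ‖ ^ 2 : ℝ) : ℂ)) ∧
    ν.variation univ = (n : ENNReal)

/-- The admissible sequences of spherical measures: `σ k` (`k ≥ 1`) is carried by the sphere of
radius `π k`, has mass `4 n / (π^2 k^2)`, and the moments of order `l ≥ 1` in each direction are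
polynomials in `k^2` of degree at most `(l - 2) / 2` with prescribed value at `0`. -/
structure Admissible (n : ℕ) (σ : ℕ → Measure (EuclideanSpace ℝ (Fin n))) : Prop where
  sphere : ∀ k : ℕ, 1 ≤ k → σ k {x | ‖x‖ ≠ Real.pi * k} = 0
  mass : ∀ k : ℕ, 1 ≤ k → σ k univ = ENNReal.ofReal (4 * n / (Real.pi ^ 2 * k ^ 2))
  moments : ∀ (v : EuclideanSpace ℝ (Fin n)) (l : ℕ), 1 ≤ l → ∃ P : ℝ[X],
    (P = 0 ∨ 2 * P.natDegree + 2 ≤ l) ∧ P.eval 0 = (if l = 2 then 4 * ‖v‖ ^ 2 else 0) ∧
    ∀ k : ℕ, 1 ≤ k → ∫ x, (inner ℝ x v : ℝ) ^ l ∂(σ k) = P.eval ((k : ℝ) ^ 2)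

/-- `ν = -(n/3) δ_0 - ∑_{k ≥ 1} (-1)^k σ_k`, evaluated on each Borel set. -/
def IsAlternatingSum (n : ℕ) (σ : ℕ → Measure (EuclideanSpace ℝ (Fin n)))
    (ν : ComplexMeasure (EuclideanSpace ℝ (Fin n))) : Prop :=
  ∀ B : Set (EuclideanSpace ℝ (Fin n)), MeasurableSet B →
    HasSum (fun k : ℕ => (((-1) ^ (k + 1) * (σ (k + 1)).real B : ℝ) : ℂ))
      (-ν B - (((n : ℝ) / 3 * (Measure.dirac (0 : EuclideanSpace ℝ (Fin n))).real B : ℝ) : ℂ))

open Pool.Agent.Helper3K9.EM in
theorem result (n : ℕ) (hn : 2 ≤ n) (ν : ComplexMeasure (EuclideanSpace ℝ (Fin n))) :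
    IsExtremal n ν ↔ ∃ σ : ℕ → Measure (EuclideanSpace ℝ (Fin n)),
      Admissible n σ ∧ IsAlternatingSum n σ ν := by
  have hn0 : 0 < n := by omega
  have hint : ∀ (μ : Measure (V n)) [IsFiniteMeasure μ] (ξ : V n),
      Integrable (fun t : V n => Complex.exp (-((inner ℝ t ξ : ℝ) : ℂ) * Complex.I)) μ :=
    fun μ _ ξ => Integrable.of_bound (continuous_ee_left ξ).aestronglyMeasurable 1
      (Filter.Eventually.of_forall fun x => (norm_ee x ξ).le)
  constructor
  · rintro ⟨hF, hV⟩
    have hfin : ν.variation univ ≠ ⊤ := by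
      rw [hV]
      exact ENNReal.natCast_ne_top n
    obtain ⟨ψ, hψ, h1, hνψ⟩ := polar ν hfin
    set μ := ν.variation with hμ
    have fμ : IsFiniteMeasure μ := ⟨lt_of_le_of_ne le_top hfin⟩
    have hExt : Ext n μ ψ := by
      refine ⟨fμ, ?_, hψ, h1, ?_⟩
      · rw [measureReal_def, hV]
        simp
      · intro ξ hξ
        have e1 := hF ξ hξ
        unfold fourierTransform at e1
        rw [hνψ, integral_density μ ψ hψ (Filter.Eventually.of_forall h1) _ (hint μ ξ)] at e1
        exact e1
    have hae := ext_ae hn0 hExt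
    have hsys := ext_sys hn0 hExt
    refine ⟨part μ, ⟨fun k _ => hsys.sph k, fun k hk => ?_, ext_moment hn0 hExt⟩, ?_⟩
    · rw [hsys.mass k]
      unfold mm
      rw [if_neg (by omega)]
    · intro B hB
      have hsum : Measure.sum (part μ) = μ := sum_part (hae.mono fun x hx => hx.2)
      have key := hsys.hasSum_set hB
      rw [hsum] at key
      have e2 : ν B = (μ.withDensityᵥ ps : ComplexMeasure (V n)) B := by
        rw [hνψ]
        congr 1
        exact WithDensityᵥEq.congr_ae (hae.mono fun x hx => hx.1)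
      rw [e2]
      exact key
  · rintro ⟨σ, hσ, hsum⟩
    set τ : ℕ → Measure (V n) := fun k =>
      if k = 0 then ENNReal.ofReal ((n : ℝ) / 3) • Measure.dirac 0 else σ k with hτ
    have hsys : Sys n τ := by
      constructor
      · intro k
        by_cases hk : k = 0
        · subst hk
          have hm : MeasurableSet {x : V n | ‖x‖ ≠ Real.pi * (0 : ℕ)} :=
            (measurableSet_eq_fun measurable_norm measurable_const).compl
          simp only [hτ, if_true, Measure.smul_apply]
          rw [Measure.dirac_apply' _ hm]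
          simp
        · simp only [hτ, if_neg hk]
          exact hσ.sphere k (by omega)
      · intro k
        by_cases hk : k = 0
        · subst hk
          simp [hτ, mm]
        · simp only [hτ, mm, if_neg hk]
          exact hσ.mass k (by omega)
    have hmom : MomentCond n τ := by
      intro v l hl
      obtain ⟨P, h1, h2, h3⟩ := hσ.moments v l hl
      refine ⟨P, h1, h2, fun k hk => ?_⟩
      simp only [hτ, if_neg (by omega : k ≠ 0)]
      exact h3 k hk
    have f1 := hsys.sum_fin
    have hν : ν = (Measure.sum τ).withDensityᵥ ps := by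
      ext B hB
      have s1 := hsum B hB
      have s2 := hsys.hasSum_set hB
      have e3 : (fun k : ℕ => (((-1) ^ (k + 1) * (τ (k + 1)).real B : ℝ) : ℂ)) =
          fun k : ℕ => (((-1) ^ (k + 1) * (σ (k + 1)).real B : ℝ) : ℂ) := by
        funext k
        simp [hτ]
      rw [e3] at s2
      have := s1.unique s2
      have h4 := sub_left_injective this
      exact neg_injective h4
    have hone := mu_sys_one hsys
    constructor
    · intro ξ hξ
      unfold fourierTransform
      rw [hν, integral_density _ ps ps_meas hone _ (hint _ ξ)]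
      have := sufficiency hn0 hsys hmom ξ hξ
      rw [← this, ← integral_neg]
      congr 1
      funext x
      unfold ee ps
      ring
    · rw [hν, variation_density _ ps ps_meas hone, hsys.sum_univ]
      simp

end Pool.Agent.Results.MP_489845_an.ExtremalMeasures
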